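import Pool.Agent.Helper49.AS.wc

/-!
# Parseval on the cube and the local `L²` bound
-/

set_option autoImplicit false

open Finset MeasureTheory

namespace Pool.Agent.Helper49.AS

open Pool.Agent.Helper64.AS

/-- The exponential with frequency `(k, m)`. -/
noncomputable def ex (r : ℕ) (k : ℤ) (m : Fin r → ℤ) (z : ℝ × (Fin r → ℝ)) : ℂ :=
  Complex.exp (((∑ l, z.2 l * m l - z.1 * k : ℝ) : ℂ) * Complex.I)

lemma norm_ex (r : ℕ) (k : ℤ) (m : Fin r → ℤ) (z : ℝ × (Fin r → ℝ)) : ‖ex r k m z‖ = 1 :=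
  Complex.norm_exp_ofReal_mul_I _

lemma continuous_ex (r : ℕ) (k : ℤ) (m : Fin r → ℤ) : Continuous (ex r k m) := by
  unfold ex
  fun_prop

lemma ex_conj_mul (r : ℕ) (k k' : ℤ) (m m' : Fin r → ℤ) (z : ℝ × (Fin r → ℝ)) :
    ex r k m z * (starRingEnd ℂ) (ex r k' m' z) = ex r (k - k') (m - m') z := by
  unfold ex
  rw [← Complex.exp_conj, ← Complex.exp_add]
  congr 1
  rw [map_mul, Complex.conj_ofReal, Complex.conj_I]
  push_cast
  simp only [Pi.sub_apply, Int.cast_sub, mul_sub, Finset.sum_sub_distrib]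
  ring

lemma int_exp (k : ℤ) : ∫ x in Set.Icc (0 : ℝ) (2 * Real.pi),
    Complex.exp (((x * k : ℝ) : ℂ) * Complex.I) = if k = 0 then ((2 * Real.pi : ℝ) : ℂ) else 0 := by
  rw [integral_Icc_eq_integral_Ioc, ← intervalIntegral.integral_of_le (by positivity)]
  split_ifs with h
  · subst h
    simp
  · have e : ∀ x : ℝ, Complex.exp (((x * k : ℝ) : ℂ) * Complex.I) =
        Complex.exp ((k * Complex.I : ℂ) * x) := by
      intro x
      congr 1
      push_cast
      ring
    simp_rw [e]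
    rw [integral_exp_mul_complex]
    · have e1 : Complex.exp ((k * Complex.I : ℂ) * ((2 * Real.pi : ℝ) : ℂ)) = 1 := by
        rw [Complex.exp_eq_one_iff]
        refine ⟨k, ?_⟩
        push_cast
        ring
      rw [e1]
      simp
    · have : (k : ℂ) ≠ 0 := by exact_mod_cast h
      exact mul_ne_zero this Complex.I_ne_zero

lemma int_cube (r : ℕ) (k : ℤ) (m : Fin r → ℤ) :
    ∫ z in cube r, ex r k m z = if k = 0 ∧ m = 0 then (((2 * Real.pi) ^ (r + 1) : ℝ) : ℂ) else 0 := by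
  have e : ∀ z : ℝ × (Fin r → ℝ), ex r k m z =
      Complex.exp (((z.1 * ((-k : ℤ) : ℝ) : ℝ) : ℂ) * Complex.I) *
        ∏ l, Complex.exp (((z.2 l * (m l : ℝ) : ℝ) : ℂ) * Complex.I) := by
    intro z
    unfold ex
    rw [← Complex.exp_sum, ← Complex.exp_add]
    congr 1
    push_cast
    rw [← Finset.sum_mul]
    ring
  simp_rw [e]
  unfold cube
  rw [Measure.volume_eq_prod, setIntegral_prod_mul
    (fun t : ℝ => Complex.exp (((t * ((-k : ℤ) : ℝ) : ℝ) : ℂ) * Complex.I))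
    (fun x : Fin r → ℝ => ∏ l, Complex.exp (((x l * (m l : ℝ) : ℝ) : ℂ) * Complex.I))]
  have e2 : ∫ x in Set.Icc (0 : Fin r → ℝ) (fun _ => 2 * Real.pi),
      ∏ l, Complex.exp (((x l * (m l : ℝ) : ℝ) : ℂ) * Complex.I) =
      ∏ l, ∫ y in Set.Icc (0 : ℝ) (2 * Real.pi),
        Complex.exp (((y * (m l : ℝ) : ℝ) : ℂ) * Complex.I) := by
    rw [← Set.pi_univ_Icc, volume_pi, Measure.restrict_pi_pi]
    exact integral_fintype_prod_eq_prod
      (fun (l : Fin r) (y : ℝ) => Complex.exp (((y * (m l : ℝ) : ℝ) : ℂ) * Complex.I))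
  rw [e2, int_exp]
  simp_rw [int_exp]
  by_cases hk : k = 0
  · by_cases hm : m = 0
    · simp [hk, hm, pow_succ]
      ring
    · rw [if_neg (c := k = 0 ∧ m = 0) (by tauto)]
      obtain ⟨l, hl⟩ : ∃ l, m l ≠ 0 := by
        by_contra h
        exact hm (funext (fun l => by_contra (fun hl => h ⟨l, hl⟩)))
      rw [Finset.prod_eq_zero (Finset.mem_univ l) (by rw [if_neg hl]), mul_zero]
  · rw [if_neg (c := -k = 0) (by simpa using hk), if_neg (c := k = 0 ∧ m = 0) (by tauto), zero_mul]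

lemma isCompact_cube (r : ℕ) : IsCompact (cube r) := by
  unfold cube
  exact isCompact_Icc.prod isCompact_Icc

lemma measurableSet_cube (r : ℕ) : MeasurableSet (cube r) := (isCompact_cube r).measurableSet

lemma integrableOn_of_cont {E : Type*} [NormedAddCommGroup E] (r : ℕ) (f : ℝ × (Fin r → ℝ) → E)
    (hf : Continuous f) : IntegrableOn f (cube r) :=
  hf.continuousOn.integrableOn_compact (isCompact_cube r)

/-- Parseval. -/
lemma parseval (r : ℕ) {ι : Type*} (P : Finset ι) (k : ι → ℤ) (m : ι → Fin r → ℤ) (b : ι → ℂ)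
    (hinj : ∀ p ∈ P, ∀ q ∈ P, k p = k q → m p = m q → p = q) :
    ∫ z in cube r, ‖∑ p ∈ P, b p * ex r (k p) (m p) z‖ ^ 2 =
      (2 * Real.pi) ^ (r + 1) * ∑ p ∈ P, ‖b p‖ ^ 2 := by
  have h1 : ((∫ z in cube r, ‖∑ p ∈ P, b p * ex r (k p) (m p) z‖ ^ 2 : ℝ) : ℂ) =
      ∫ z in cube r, ∑ p ∈ P, ∑ q ∈ P, (b p * (starRingEnd ℂ) (b q)) *
        ex r (k p - k q) (m p - m q) z := by
    rw [← integral_complex_ofReal]
    congr 1
    ext z
    rw [← Complex.normSq_eq_norm_sq, ← Complex.mul_conj, map_sum, Finset.sum_mul_sum]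
    apply Finset.sum_congr rfl
    intro p _
    apply Finset.sum_congr rfl
    intro q _
    rw [map_mul, ← ex_conj_mul]
    ring
  have h2 : ∫ z in cube r, ∑ p ∈ P, ∑ q ∈ P, (b p * (starRingEnd ℂ) (b q)) *
        ex r (k p - k q) (m p - m q) z =
      ∑ p ∈ P, ∑ q ∈ P, (b p * (starRingEnd ℂ) (b q)) *
        ∫ z in cube r, ex r (k p - k q) (m p - m q) z := by
    rw [integral_finsetSum]
    · apply Finset.sum_congr rfl
      intro p _
      rw [integral_finsetSum]
      · apply Finset.sum_congr rfl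
        intro q _
        rw [integral_const_mul]
      · intro q _
        exact integrableOn_of_cont r _ (continuous_const.mul (continuous_ex _ _ _))
    · intro p _
      apply integrableOn_of_cont r
      exact continuous_finsetSum _ (fun q _ => continuous_const.mul (continuous_ex _ _ _))
  have h3 : ∀ p ∈ P, ∑ q ∈ P, (b p * (starRingEnd ℂ) (b q)) *
        ∫ z in cube r, ex r (k p - k q) (m p - m q) z =
        (((2 * Real.pi) ^ (r + 1) * ‖b p‖ ^ 2 : ℝ) : ℂ) := by
    intro p hp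
    rw [Finset.sum_eq_single p]
    · rw [int_cube, if_pos ⟨by ring, by simp⟩, Complex.mul_conj, Complex.normSq_eq_norm_sq]
      push_cast
      ring
    · intro q hq hqp
      rw [int_cube, if_neg, mul_zero]
      rintro ⟨h4, h5⟩
      exact hqp (hinj q hq p hp (by omega) (sub_eq_zero.mp h5).symm)
    · intro h
      exact absurd hp h
  rw [h2, Finset.sum_congr rfl h3, ← Complex.ofReal_sum, ← Finset.mul_sum] at h1
  exact_mod_cast h1

/-- The first frequency. -/
def kf (r : ℕ) (ξ : ℤ × (Fin r → ℤ)) : ℤ := ξ.1 ^ 2 + ∑ l, ξ.2 l ^ 2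

lemma FF_eq (r : ℕ) (S : Finset (ℤ × (Fin r → ℤ))) (a : ℤ × (Fin r → ℤ) → ℂ)
    (z : ℝ × (Fin r → ℝ)) : FF r S a z.1 z.2 = ∑ ξ ∈ S, a ξ * ex r (kf r ξ) ξ.2 z := by
  unfold FF
  apply Finset.sum_congr rfl
  intro ξ _
  unfold ex kf
  push_cast
  rfl

lemma continuous_FF (r : ℕ) (S : Finset (ℤ × (Fin r → ℤ))) (a : ℤ × (Fin r → ℤ) → ℂ) :
    Continuous (fun z : ℝ × (Fin r → ℝ) => FF r S a z.1 z.2) := by
  simp_rw [FF_eq]
  exact continuous_finsetSum _ (fun ξ _ => continuous_const.mul (continuous_ex _ _ _))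

lemma norm_ee_sub_one_le (x : ℝ) : ‖ee x - 1‖ ≤ 2 * Real.pi * |x| := by
  unfold ee
  rw [mul_comm, Complex.norm_exp_I_mul_ofReal_sub_one, Real.norm_eq_abs, abs_mul]
  have h : |Real.sin (2 * Real.pi * x / 2)| ≤ |2 * Real.pi * x / 2| := Real.abs_sin_le_abs
  have h2 : |2 * Real.pi * x / 2| = Real.pi * |x| := by
    have : 2 * Real.pi * x / 2 = Real.pi * x := by ring
    rw [this, abs_mul, abs_of_pos Real.pi_pos]
  rw [h2] at h
  have : |(2 : ℝ)| = 2 := abs_of_pos (by norm_num)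
  rw [this]
  linarith

lemma norm_dir_ge (K : ℕ) (x : ℝ) (hx : K * |x| ≤ 1 / 2) : 2 / Real.pi * K ≤ ‖dir K x‖ := by
  by_cases hx0 : x = 0
  · subst hx0
    have h1 : dir K 0 = K := by
      unfold dir
      simp [ee_zero]
    rw [h1, Complex.norm_natCast]
    have h2 : 2 / Real.pi ≤ 1 := by
      rw [div_le_one Real.pi_pos]
      exact Real.two_le_pi
    nlinarith [(Nat.cast_nonneg K : (0 : ℝ) ≤ K)]
  · have h1 := dir_mul K x
    have h2 := norm_ee_sub_one (K * x)
    have h3 : |(K : ℝ) * x - round ((K : ℝ) * x)| = K * |x| := by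
      have h4 : |(K : ℝ) * x| = K * |x| := by
        rw [abs_mul, abs_of_nonneg (Nat.cast_nonneg K)]
      rw [← h4]
      rcases lt_or_eq_of_le (le_trans (le_of_eq h4) hx) with h5 | h5
      · have h6 : round ((K : ℝ) * x) = 0 := by
          rw [round_eq_zero_iff]
          rw [abs_lt] at h5
          constructor <;> linarith [h5.1, h5.2]
        rw [h6]
        simp
      · rcases abs_choice ((K : ℝ) * x) with h6 | h6
        · have h7 : (K : ℝ) * x = 1 / 2 := by linarith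
          rw [h7]
          norm_num [round_eq]
        · have h7 : (K : ℝ) * x = - (1 / 2) := by linarith
          rw [h7]
          norm_num [round_eq]
    rw [h3, ← h1, norm_mul] at h2
    have h5 := norm_ee_sub_one_le x
    have h6 : 4 * (K * |x|) ≤ ‖dir K x‖ * (2 * Real.pi * |x|) :=
      le_trans h2 (mul_le_mul_of_nonneg_left h5 (norm_nonneg _))
    have h7 : 0 < |x| := abs_pos.mpr hx0
    have h8 : (4 * K) * |x| ≤ (‖dir K x‖ * (2 * Real.pi)) * |x| := by linarith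
    have h9 := le_of_mul_le_mul_right h8 h7
    rw [div_mul_eq_mul_div, div_le_iff₀ Real.pi_pos]
    linarith

/-- The local `L²` bound, as a bound of the measure. -/
lemma local_meas (r L K : ℕ) (S₀ : Finset ℤ) (β : Fin r → ℤ) (a : ℤ × (Fin r → ℤ) → ℂ)
    (hK : 1 ≤ K) (hsep : ∀ n ∈ S₀, ∀ n' ∈ S₀, n ≠ n' → (K : ℤ) ≤ |n ^ 2 - n' ^ 2|) (c lam : ℝ)
    (hlam : 0 < lam) (ha : ∑ ξ ∈ bx r S₀ β L, ‖a ξ‖ ^ 2 ≤ 1) :
    volume.real {z ∈ cube r | |z.1 - c| ≤ Real.pi / K ∧ lam < ‖FF r (bx r S₀ β L) a z.1 z.2‖} ≤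
      (2 * Real.pi) ^ (r + 1) * Real.pi ^ 2 / (4 * K * lam ^ 2) := by
  have hK0 : (0 : ℝ) < K := by exact_mod_cast hK
  set G : ℝ × (Fin r → ℝ) → ℂ := fun z =>
    ∑ p ∈ range K ×ˢ bx r S₀ β L, (a p.2 * ee (-(p.1 : ℝ) * c / (2 * Real.pi))) *
      ex r (kf r p.2 - p.1) p.2.2 z with hG
  have hGc : Continuous G :=
    continuous_finsetSum _ (fun ξ _ => continuous_const.mul (continuous_ex _ _ _))
  have hGeq : ∀ z, G z = dir K ((z.1 - c) / (2 * Real.pi)) * FF r (bx r S₀ β L) a z.1 z.2 := by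
    intro z
    rw [FF_eq, hG]
    unfold dir
    simp only
    rw [Finset.sum_product, Finset.sum_mul_sum]
    apply Finset.sum_congr rfl
    intro j _
    apply Finset.sum_congr rfl
    intro ξ _
    have h1 : ex r (kf r ξ - j) ξ.2 z = ee ((j : ℝ) * z.1 / (2 * Real.pi)) *
        ex r (kf r ξ) ξ.2 z := by
      unfold ex ee
      rw [← Complex.exp_add]
      congr 1
      rw [← add_mul]
      congr 1
      rw [← Complex.ofReal_add]
      congr 1
      push_cast
      field_simp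
      ring
    rw [h1]
    have h2 : ee ((j : ℝ) * ((z.1 - c) / (2 * Real.pi))) =
        ee (-(j : ℝ) * c / (2 * Real.pi)) * ee ((j : ℝ) * z.1 / (2 * Real.pi)) := by
      rw [← ee_add]
      congr 1
      ring
    rw [h2]
    ring
  have hP : ∫ z in cube r, ‖G z‖ ^ 2 ≤ (2 * Real.pi) ^ (r + 1) * K := by
    have h1 := parseval r (range K ×ˢ bx r S₀ β L) (fun p => kf r p.2 - p.1) (fun p => p.2.2)
      (fun p => a p.2 * ee (-(p.1 : ℝ) * c / (2 * Real.pi))) (by
        rintro ⟨j, ξ⟩ hp ⟨j', ξ'⟩ hp' h2 h3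
        simp only at h2 h3
        simp only [Finset.mem_product, bx, Finset.mem_range] at hp hp'
        have h4 : kf r ξ - kf r ξ' = ξ.1 ^ 2 - ξ'.1 ^ 2 := by
          unfold kf
          rw [h3]
          ring
        have h5 : ξ.1 = ξ'.1 := by
          by_contra hne
          have h6 := hsep ξ.1 hp.2.1 ξ'.1 hp'.2.1 hne
          rw [← h4, le_abs] at h6
          have h7 := hp.1
          have h8 := hp'.1
          omega
        have h6 : ξ = ξ' := Prod.ext h5 h3
        subst h6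
        have : j = j' := by omega
        rw [this])
    rw [h1]
    apply mul_le_mul_of_nonneg_left _ (by positivity)
    rw [Finset.sum_product]
    have h2 : ∀ j ∈ range K, ∑ ξ ∈ bx r S₀ β L,
        ‖a (j, ξ).2 * ee (-(((j, ξ) : ℕ × (ℤ × (Fin r → ℤ))).1 : ℝ) * c / (2 * Real.pi))‖ ^ 2 ≤
          1 := by
      intro j _
      refine le_trans (le_of_eq ?_) ha
      apply Finset.sum_congr rfl
      intro ξ _
      rw [norm_mul, norm_ee, mul_one]
    refine le_trans (Finset.sum_le_sum h2) ?_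
    simp
  have hsub : {z ∈ cube r | |z.1 - c| ≤ Real.pi / K ∧
      lam < ‖FF r (bx r S₀ β L) a z.1 z.2‖} ⊆
      {z | (2 / Real.pi * K * lam) ^ 2 ≤ ‖G z‖ ^ 2} ∩ cube r := by
    rintro z ⟨hz, hz1, hz2⟩
    refine ⟨?_, hz⟩
    change (2 / Real.pi * K * lam) ^ 2 ≤ ‖G z‖ ^ 2
    apply pow_le_pow_left₀ (by positivity)
    rw [hGeq, norm_mul]
    apply mul_le_mul _ hz2.le hlam.le (norm_nonneg _)
    apply norm_dir_ge
    rw [abs_div, abs_of_pos (by positivity : (0 : ℝ) < 2 * Real.pi)]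
    rw [le_div_iff₀ hK0] at hz1
    rw [mul_div_assoc', div_le_div_iff₀ (by positivity) (by norm_num)]
    nlinarith [Real.pi_pos]
  have hfin : volume (cube r) < ⊤ := (isCompact_cube r).measure_lt_top
  have hM := mul_meas_ge_le_integral_of_nonneg (μ := volume.restrict (cube r))
    (f := fun z => ‖G z‖ ^ 2) (Filter.Eventually.of_forall (fun z => by positivity))
    (integrableOn_of_cont r _ (hGc.norm.pow 2)) ((2 / Real.pi * K * lam) ^ 2)
  have hms : MeasurableSet {z | (2 / Real.pi * K * lam) ^ 2 ≤ ‖G z‖ ^ 2} :=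
    (isClosed_le continuous_const (hGc.norm.pow 2)).measurableSet
  rw [measureReal_restrict_apply hms] at hM
  have h5 : volume.real {z ∈ cube r | |z.1 - c| ≤ Real.pi / K ∧
      lam < ‖FF r (bx r S₀ β L) a z.1 z.2‖} ≤
      volume.real ({z | (2 / Real.pi * K * lam) ^ 2 ≤ ‖G z‖ ^ 2} ∩ cube r) := by
    apply measureReal_mono hsub
  have h6 : (2 / Real.pi * K * lam) ^ 2 * volume.real {z ∈ cube r | |z.1 - c| ≤ Real.pi / K ∧
      lam < ‖FF r (bx r S₀ β L) a z.1 z.2‖} ≤ (2 * Real.pi) ^ (r + 1) * K :=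
    le_trans (mul_le_mul_of_nonneg_left h5 (by positivity)) (le_trans hM hP)
  rw [le_div_iff₀ (by positivity)]
  have h7 : (2 / Real.pi * K * lam) ^ 2 = 4 * K ^ 2 * lam ^ 2 / Real.pi ^ 2 := by
    field_simp
    try ring
  rw [h7, div_mul_eq_mul_div, div_le_iff₀ (by positivity)] at h6
  have h8 : (volume.real {z ∈ cube r | |z.1 - c| ≤ Real.pi / K ∧
      lam < ‖FF r (bx r S₀ β L) a z.1 z.2‖} * (4 * K * lam ^ 2)) * K ≤
      ((2 * Real.pi) ^ (r + 1) * Real.pi ^ 2) * K := by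
    nlinarith
  exact le_of_mul_le_mul_right h8 hK0

end Pool.Agent.Helper49.AS
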