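import Pool.Agent.Helper49.AS.Pars

/-!
# The crude bound for large shifts (`S_crude`)
-/

set_option autoImplicit false

open Finset MeasureTheory

namespace Pool.Agent.Helper49.AS

open Pool.Agent.Helper64.AS

/-- The sum over all frequencies of the box factorises. -/
lemma sum_bx (r L : ℕ) (n₀ : ℤ) (N₀ : ℕ) (β : Fin r → ℤ) (z : ℝ × (Fin r → ℝ)) :
    ‖∑ ξ ∈ bx r (Finset.Ico n₀ (n₀ + N₀)) β L, ex r (kf r ξ) ξ.2 z‖ ≤
      ((L : ℝ) + 1) ^ r * ‖∑ n ∈ range N₀, ee (((n₀ : ℝ) + n) ^ 2 * (-z.1 / (2 * Real.pi)))‖ := by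
  have h1 : ∀ ξ : ℤ × (Fin r → ℤ), ex r (kf r ξ) ξ.2 z =
      ee ((ξ.1 : ℝ) ^ 2 * (-z.1 / (2 * Real.pi))) *
        ∏ l, Complex.exp (((z.2 l * ξ.2 l - z.1 * ξ.2 l ^ 2 : ℝ) : ℂ) * Complex.I) := by
    intro ξ
    unfold ex ee kf
    rw [← Complex.exp_sum, ← Complex.exp_add]
    congr 1
    rw [← Finset.sum_mul, ← add_mul]
    congr 1
    rw [← Complex.ofReal_sum, ← Complex.ofReal_add]
    congr 1
    rw [Finset.sum_sub_distrib, ← Finset.mul_sum]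
    push_cast
    field_simp
    ring
  simp_rw [h1]
  unfold bx
  rw [Finset.sum_product]
  simp only
  simp_rw [← Finset.mul_sum]
  rw [← Finset.sum_mul, ← Finset.prod_univ_sum (fun l => Finset.Icc (β l) (β l + L))
    (fun l (m : ℤ) => Complex.exp (((z.2 l * m - z.1 * m ^ 2 : ℝ) : ℂ) * Complex.I)), norm_mul,
    mul_comm]
  apply mul_le_mul
  · rw [norm_prod]
    calc ∏ l : Fin r, ‖∑ m ∈ Finset.Icc (β l) (β l + L),
          Complex.exp (((z.2 l * m - z.1 * m ^ 2 : ℝ) : ℂ) * Complex.I)‖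
        ≤ ∏ l : Fin r, ((L : ℝ) + 1) := by
          apply Finset.prod_le_prod
          · intro l _
            exact norm_nonneg _
          · intro l _
            refine le_trans (norm_sum_le _ _) ?_
            simp_rw [Complex.norm_exp_ofReal_mul_I]
            rw [Finset.sum_const, Int.card_Icc, nsmul_eq_mul, mul_one]
            have : (β l + L + 1 - β l).toNat = L + 1 := by omega
            rw [this]
            push_cast
            exact le_refl _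
      _ = ((L : ℝ) + 1) ^ r := by simp
  · apply le_of_eq
    congr 1
    symm
    apply Finset.sum_bij (fun (n : ℕ) _ => n₀ + (n : ℤ))
    · intro n hn
      rw [Finset.mem_range] at hn
      rw [Finset.mem_Ico]
      omega
    · intro n _ n' _ h
      simpa using h
    · intro m hm
      rw [Finset.mem_Ico] at hm
      refine ⟨(m - n₀).toNat, ?_, ?_⟩
      · rw [Finset.mem_range]
        omega
      · omega
    · intro n _
      push_cast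
      rfl
  · exact norm_nonneg _
  · positivity

/-- Duality. -/
lemma large_dual (r L : ℕ) (n₀ : ℤ) (N₀ : ℕ) (β : Fin r → ℤ) (a : ℤ × (Fin r → ℤ) → ℂ)
    (J : Finset ℕ) (z : ℕ → ℝ × (Fin r → ℝ)) (lam : ℝ) (hlam : 0 ≤ lam)
    (hz : ∀ j ∈ J, lam ≤ ‖FF r (bx r (Finset.Ico n₀ (n₀ + N₀)) β L) a (z j).1 (z j).2‖)
    (ha : ∑ ξ ∈ bx r (Finset.Ico n₀ (n₀ + N₀)) β L, ‖a ξ‖ ^ 2 ≤ 1) :
    (J.card * lam) ^ 2 ≤ ∑ i ∈ J, ∑ j ∈ J, ((L : ℝ) + 1) ^ r *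
      ‖∑ n ∈ range N₀, ee (((n₀ : ℝ) + n) ^ 2 * (-((z i).1 - (z j).1) / (2 * Real.pi)))‖ := by
  set S := bx r (Finset.Ico n₀ (n₀ + N₀)) β L with hS
  set F : ℕ → ℂ := fun j => FF r S a (z j).1 (z j).2 with hF
  set c : ℕ → ℂ := fun j => (starRingEnd ℂ) (F j) / ‖F j‖ with hc
  have hc1 : ∀ j, ‖c j‖ ≤ 1 := by
    intro j
    rw [hc]
    simp only
    rw [norm_div, RCLike.norm_conj, Complex.norm_real, norm_norm]
    exact div_self_le_one _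
  have hcF : ∀ j, c j * F j = ‖F j‖ := by
    intro j
    rw [hc]
    simp only
    by_cases h : ‖F j‖ = 0
    · rw [h, norm_eq_zero.mp h]
      simp
    · have h' : ((‖F j‖ : ℝ) : ℂ) ≠ 0 := by exact_mod_cast h
      rw [div_mul_eq_mul_div, div_eq_iff h', mul_comm ((starRingEnd ℂ) (F j)), Complex.mul_conj,
        Complex.normSq_eq_norm_sq]
      push_cast
      ring
  set G : ℤ × (Fin r → ℤ) → ℂ := fun ξ => ∑ j ∈ J, c j * ex r (kf r ξ) ξ.2 (z j) with hG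
  have h1 : ((∑ j ∈ J, ‖F j‖ : ℝ) : ℂ) = ∑ ξ ∈ S, a ξ * G ξ := by
    push_cast
    simp_rw [← hcF]
    have : ∀ j, F j = ∑ ξ ∈ S, a ξ * ex r (kf r ξ) ξ.2 (z j) := by
      intro j
      rw [hF]
      simp only
      rw [FF_eq]
    simp_rw [this]
    rw [hG]
    simp only
    simp_rw [Finset.mul_sum]
    rw [Finset.sum_comm]
    apply Finset.sum_congr rfl
    intro ξ _
    apply Finset.sum_congr rfl
    intro j _
    ring
  have h2 : (J.card * lam) ^ 2 ≤ ∑ ξ ∈ S, ‖G ξ‖ ^ 2 := by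
    have h3 : (J.card : ℝ) * lam ≤ ∑ j ∈ J, ‖F j‖ := by
      rw [← nsmul_eq_mul, ← Finset.sum_const]
      exact Finset.sum_le_sum hz
    have h4 : (∑ j ∈ J, ‖F j‖ : ℝ) ≤ ∑ ξ ∈ S, ‖a ξ‖ * ‖G ξ‖ := by
      have h5 : (∑ j ∈ J, ‖F j‖ : ℝ) = ‖∑ ξ ∈ S, a ξ * G ξ‖ := by
        rw [← h1, Complex.norm_real, Real.norm_of_nonneg]
        exact Finset.sum_nonneg (fun _ _ => norm_nonneg _)
      rw [h5]
      refine le_trans (norm_sum_le _ _) (le_of_eq ?_)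
      simp_rw [norm_mul]
    calc ((J.card : ℝ) * lam) ^ 2 ≤ (∑ ξ ∈ S, ‖a ξ‖ * ‖G ξ‖) ^ 2 :=
          pow_le_pow_left₀ (by positivity) (le_trans h3 h4) 2
      _ ≤ (∑ ξ ∈ S, ‖a ξ‖ ^ 2) * ∑ ξ ∈ S, ‖G ξ‖ ^ 2 := Finset.sum_mul_sq_le_sq_mul_sq _ _ _
      _ ≤ 1 * ∑ ξ ∈ S, ‖G ξ‖ ^ 2 :=
          mul_le_mul_of_nonneg_right ha (Finset.sum_nonneg (fun _ _ => by positivity))
      _ = ∑ ξ ∈ S, ‖G ξ‖ ^ 2 := one_mul _
  refine le_trans h2 ?_
  have h3 : ((∑ ξ ∈ S, ‖G ξ‖ ^ 2 : ℝ) : ℂ) = ∑ i ∈ J, ∑ j ∈ J, (c i * (starRingEnd ℂ) (c j)) *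
      ∑ ξ ∈ S, ex r (kf r ξ) ξ.2 (z i - z j) := by
    push_cast
    have h4 : ∀ ξ ∈ S, ((‖G ξ‖ : ℝ) : ℂ) ^ 2 = ∑ i ∈ J, ∑ j ∈ J,
        (c i * (starRingEnd ℂ) (c j)) * ex r (kf r ξ) ξ.2 (z i - z j) := by
      intro ξ _
      rw [← Complex.ofReal_pow, ← Complex.normSq_eq_norm_sq, ← Complex.mul_conj, hG]
      simp only
      rw [map_sum, Finset.sum_mul_sum]
      apply Finset.sum_congr rfl
      intro i _
      apply Finset.sum_congr rfl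
      intro j _
      have h5 : ex r (kf r ξ) ξ.2 (z i - z j) = ex r (kf r ξ) ξ.2 (z i) *
          (starRingEnd ℂ) (ex r (kf r ξ) ξ.2 (z j)) := by
        unfold ex
        rw [← Complex.exp_conj, ← Complex.exp_add]
        congr 1
        rw [map_mul, Complex.conj_ofReal, Complex.conj_I]
        push_cast
        simp only [Prod.snd_sub, Prod.fst_sub, Pi.sub_apply, Complex.ofReal_sub, sub_mul,
          Finset.sum_sub_distrib]
        ring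
      rw [h5, map_mul]
      ring
    rw [Finset.sum_congr rfl h4, Finset.sum_comm]
    apply Finset.sum_congr rfl
    intro i _
    rw [Finset.sum_comm]
    apply Finset.sum_congr rfl
    intro j _
    rw [Finset.mul_sum]
  have h4 : (∑ ξ ∈ S, ‖G ξ‖ ^ 2 : ℝ) = ‖∑ i ∈ J, ∑ j ∈ J, (c i * (starRingEnd ℂ) (c j)) *
      ∑ ξ ∈ S, ex r (kf r ξ) ξ.2 (z i - z j)‖ := by
    rw [← h3, Complex.norm_real, Real.norm_of_nonneg]
    exact Finset.sum_nonneg (fun _ _ => by positivity)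
  rw [h4]
  refine le_trans (norm_sum_le _ _) ?_
  apply Finset.sum_le_sum
  intro i _
  refine le_trans (norm_sum_le _ _) ?_
  apply Finset.sum_le_sum
  intro j _
  rw [norm_mul, norm_mul, RCLike.norm_conj]
  have h5 := sum_bx r L n₀ N₀ β (z i - z j)
  calc ‖c i‖ * ‖c j‖ * ‖∑ ξ ∈ S, ex r (kf r ξ) ξ.2 (z i - z j)‖ ≤
      1 * 1 * ‖∑ ξ ∈ S, ex r (kf r ξ) ξ.2 (z i - z j)‖ := by
        gcongr
        · exact hc1 i
        · exact hc1 j
    _ ≤ _ := by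
        rw [one_mul, one_mul]
        exact h5

lemma count_near (T : Finset ℕ) (t : ℕ → ℝ) (s : ℝ) (N2 Q P : ℕ)
    (ht : ∀ j ∈ T, ∃ (q : ℕ) (a : ℤ), q ≤ Q ∧ |a| ≤ 2 * Q ∧
      |t j - (s + a / q)| * N2 + 2 ≤ P)
    (hj : ∀ j ∈ T, (j : ℝ) ≤ t j * N2 ∧ t j * N2 ≤ j + 1) :
    T.card ≤ (Q + 1) * (4 * Q + 1) * (2 * P + 1) := by
  have hsub : T ⊆ ((range (Q + 1) ×ˢ Finset.Icc (-(2 * Q : ℤ)) (2 * Q)) ×ˢ
      Finset.Icc (-(P : ℤ)) P).image
      (fun p => (⌊(s + (p.1.2 : ℝ) / (p.1.1 : ℝ)) * N2⌋ + p.2).toNat) := by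
    intro j hjT
    obtain ⟨q, a, hq, ha, hd⟩ := ht j hjT
    obtain ⟨h1, h2⟩ := hj j hjT
    rw [Finset.mem_image]
    refine ⟨((q, a), (j : ℤ) - ⌊(s + (a : ℝ) / (q : ℝ)) * N2⌋), ?_, ?_⟩
    · rw [Finset.mem_product, Finset.mem_product, Finset.mem_range, Finset.mem_Icc,
        Finset.mem_Icc, ← abs_le, ← abs_le]
      refine ⟨⟨Nat.lt_succ_of_le hq, ha⟩, ?_⟩
      have h3 := Int.floor_le ((s + (a : ℝ) / (q : ℝ)) * N2)
      have h4 := Int.lt_floor_add_one ((s + (a : ℝ) / (q : ℝ)) * N2)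
      have h5 : |t j - (s + a / q)| * N2 = |t j * N2 - (s + a / q) * N2| := by
        rw [← sub_mul, abs_mul, abs_of_nonneg (Nat.cast_nonneg N2 : (0 : ℝ) ≤ N2)]
      rw [h5] at hd
      have h6 : |(((j : ℤ) - ⌊(s + (a : ℝ) / (q : ℝ)) * N2⌋ : ℤ) : ℝ)| ≤ P := by
        push_cast
        have h7 : |t j * N2 - (s + a / q) * N2| ≤ P - 2 := by linarith
        rw [abs_le] at h7 ⊢
        constructor <;> linarith [h7.1, h7.2]
      exact_mod_cast h6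
    · simp
  refine le_trans (Finset.card_le_card hsub) (le_trans Finset.card_image_le (le_of_eq ?_))
  rw [Finset.card_product, Finset.card_product, Finset.card_range, Int.card_Icc, Int.card_Icc]
  have h1 : (2 * (Q : ℤ) + 1 - (-(2 * Q))).toNat = 4 * Q + 1 := by omega
  have h2 : ((P : ℤ) + 1 - (-(P : ℤ))).toNat = 2 * P + 1 := by omega
  rw [h1, h2]

/-- The number of the cells with a large value. -/
lemma card_cells (C₁ : ℝ) (κ₁ : ℕ) (hC₁ : 1 ≤ C₁)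
    (hwc : ∀ (n₀ : ℤ) (N₀ : ℕ) (η τ : ℝ), 0 < η → η ≤ 1 →
      C₁ / η ^ κ₁ ≤ N₀ → η * N₀ ≤ ‖∑ n ∈ range N₀, ee (((n₀ : ℝ) + n) ^ 2 * τ)‖ →
      ∃ (q : ℕ) (a : ℤ), 1 ≤ q ∧ (q : ℝ) ≤ C₁ / η ^ κ₁ ∧
        |τ - a / q| ≤ C₁ / (η ^ κ₁ * (N₀ : ℝ) ^ 2))
    (r : ℕ) (N Lam X : ℝ) (hX : X = 2 ^ (r + 2) * Lam ^ 2)
    (n₀ : ℤ) (N₀ L N2 : ℕ) (β : Fin r → ℤ)
    (a : ℤ × (Fin r → ℤ) → ℂ) (hN : 1 ≤ N) (hLam : 1 ≤ Lam) (hNX : C₁ * X ^ (κ₁ + 1) ≤ N)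
    (hN₀ : (N₀ : ℝ) ≤ 2 * N) (hL : (L : ℝ) ≤ N) (hN2 : (N2 : ℝ) ≤ 2 * N ^ 2)
    (J : Finset ℕ) (z : ℕ → ℝ × (Fin r → ℝ)) (lam : ℝ) (hlam0 : 0 ≤ lam)
    (hlam : lam ^ 2 = N ^ (r + 1) / Lam ^ 2)
    (hz : ∀ j ∈ J, lam ≤ ‖FF r (bx r (Finset.Ico n₀ (n₀ + N₀)) β L) a (z j).1 (z j).2‖)
    (hcube : ∀ j ∈ J, 0 ≤ (z j).1 ∧ (z j).1 ≤ 2 * Real.pi)
    (hj : ∀ j ∈ J, (j : ℝ) ≤ (z j).1 / (2 * Real.pi) * N2 ∧
      (z j).1 / (2 * Real.pi) * N2 ≤ j + 1)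
    (ha : ∑ ξ ∈ bx r (Finset.Ico n₀ (n₀ + N₀)) β L, ‖a ξ‖ ^ 2 ≤ 1) :
    (J.card : ℝ) ≤ 80 * C₁ ^ 3 * X ^ (3 * κ₁ + 3) := by
  have hpi := Real.pi_pos
  have h2r : (1 : ℝ) ≤ 2 ^ (r + 2) := one_le_pow₀ (by norm_num)
  have hX1 : 1 ≤ X := by
    rw [hX]
    have : (1 : ℝ) ≤ Lam ^ 2 := one_le_pow₀ hLam
    nlinarith
  have hX0 : 0 < X := by linarith
  have hN0' : 0 < N := by linarith
  rcases Nat.eq_zero_or_pos J.card with hJ | hJ
  · rw [hJ]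
    push_cast
    positivity
  have hm : (0 : ℝ) < J.card := by exact_mod_cast hJ
  obtain ⟨m, hmdef⟩ : ∃ m : ℝ, m = J.card := ⟨_, rfl⟩
  rw [← hmdef] at hm ⊢
  set Sij : ℕ → ℕ → ℝ := fun i j =>
    ‖∑ n ∈ range N₀, ee (((n₀ : ℝ) + n) ^ 2 * (-((z i).1 - (z j).1) / (2 * Real.pi)))‖ with hSij
  have hS0 : ∀ i j, 0 ≤ Sij i j := fun i j => norm_nonneg _
  have hSN : ∀ i j, Sij i j ≤ N₀ := by
    intro i j
    rw [hSij]
    simp only
    refine le_trans (norm_sum_le _ _) ?_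
    simp_rw [norm_ee]
    simp
  have h1 := large_dual r L n₀ N₀ β a J z lam hlam0 hz ha
  have h2 : m ^ 2 * (4 * N / X) ≤ ∑ i ∈ J, ∑ j ∈ J, Sij i j := by
    have h3 : ∑ i ∈ J, ∑ j ∈ J, ((L : ℝ) + 1) ^ r * Sij i j ≤
        (2 * N) ^ r * ∑ i ∈ J, ∑ j ∈ J, Sij i j := by
      simp_rw [← Finset.mul_sum]
      apply mul_le_mul_of_nonneg_right
      · apply pow_le_pow_left₀ (by positivity)
        linarith
      · exact Finset.sum_nonneg (fun i _ => Finset.sum_nonneg (fun j _ => hS0 i j))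
    have h4 : (m * lam) ^ 2 ≤ (2 * N) ^ r * ∑ i ∈ J, ∑ j ∈ J, Sij i j := by
      rw [hmdef]
      exact le_trans h1 h3
    rw [mul_pow, hlam] at h4
    have h5 : m ^ 2 * (N ^ (r + 1) / Lam ^ 2) = (2 * N) ^ r * (m ^ 2 * (4 * N / X)) := by
      rw [hX]
      have : Lam ≠ 0 := by linarith
      field_simp
      ring
    rw [h5] at h4
    exact le_of_mul_le_mul_left h4 (by positivity)
  have hN₀l : 4 * N / X ≤ N₀ := by
    have h3 : ∑ i ∈ J, ∑ j ∈ J, Sij i j ≤ m ^ 2 * N₀ := by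
      calc ∑ i ∈ J, ∑ j ∈ J, Sij i j ≤ ∑ i ∈ J, ∑ j ∈ J, (N₀ : ℝ) :=
            Finset.sum_le_sum (fun i _ => Finset.sum_le_sum (fun j _ => hSN i j))
        _ = m ^ 2 * N₀ := by
            rw [Finset.sum_const, Finset.sum_const, nsmul_eq_mul, nsmul_eq_mul, hmdef]
            ring
    have h4 := le_trans h2 h3
    exact le_of_mul_le_mul_left h4 (by positivity)
  set A : ℝ := C₁ * X ^ κ₁ with hA
  have hA1 : 1 ≤ A := by
    rw [hA]
    have : (1 : ℝ) ≤ X ^ κ₁ := one_le_pow₀ hX1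
    nlinarith
  have hNA : A * X ≤ N := by
    rw [hA]
    calc C₁ * X ^ κ₁ * X = C₁ * X ^ (κ₁ + 1) := by ring
      _ ≤ N := hNX
  have hN₀A : 4 * A ≤ N₀ := by
    refine le_trans ?_ hN₀l
    rw [le_div_iff₀ hX0]
    linarith
  have hN₀pos : (0 : ℝ) < N₀ := by linarith
  -- the count of the good pairs
  obtain ⟨Q, hQ⟩ : ∃ Q : ℕ, Q = ⌊A⌋₊ := ⟨_, rfl⟩
  have hQu : (Q : ℝ) ≤ A := by rw [hQ]; exact Nat.floor_le (by linarith)
  obtain ⟨P, hP⟩ : ∃ P : ℕ, P = ⌈A * X ^ 2 / 8⌉₊ + 2 := ⟨_, rfl⟩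
  have hPl : A * X ^ 2 / 8 + 2 ≤ P := by
    rw [hP]
    push_cast
    have := Nat.le_ceil (A * X ^ 2 / 8)
    linarith
  have hPu : (P : ℝ) ≤ A * X ^ 2 / 8 + 3 := by
    rw [hP]
    push_cast
    have := Nat.ceil_lt_add_one (by positivity : 0 ≤ A * X ^ 2 / 8)
    linarith
  have hG : ∀ i ∈ J, ((J.filter (fun j => N₀ / X ≤ Sij i j)).card : ℝ) ≤
      80 * C₁ ^ 3 * X ^ (3 * κ₁ + 2) := by
    intro i hi
    have h3 := count_near (J.filter (fun j => N₀ / X ≤ Sij i j))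
      (fun j => (z j).1 / (2 * Real.pi)) ((z i).1 / (2 * Real.pi)) N2 Q P (by
        intro j hjm
        rw [Finset.mem_filter] at hjm
        have h4 := hjm.2
        have hη : (0 : ℝ) < 1 / X := by positivity
        have hη1 : 1 / X ≤ 1 := by rw [div_le_one hX0]; exact hX1
        have h5 : C₁ / (1 / X) ^ κ₁ = A := by
          rw [hA, one_div, inv_pow, div_inv_eq_mul]
        obtain ⟨q, b, hq1, hqA, hqb⟩ := hwc n₀ N₀ (1 / X)
          (-((z i).1 - (z j).1) / (2 * Real.pi)) hη hη1 (by rw [h5]; linarith) (by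
            rw [one_div_mul_eq_div]
            exact h4)
        rw [h5] at hqA
        have h6 : C₁ / ((1 / X) ^ κ₁ * (N₀ : ℝ) ^ 2) = A / N₀ ^ 2 := by
          rw [← div_div, h5]
        rw [h6] at hqb
        have hqQ : q ≤ Q := by
          rw [hQ]
          exact Nat.le_floor hqA
        have hq0 : (0 : ℝ) < q := by exact_mod_cast hq1
        have h7 : A / (N₀ : ℝ) ^ 2 ≤ A * X ^ 2 / (16 * N ^ 2) := by
          rw [div_le_div_iff₀ (by positivity) (by positivity)]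
          have h8 : (4 * N / X) ^ 2 ≤ (N₀ : ℝ) ^ 2 := pow_le_pow_left₀ (by positivity) hN₀l 2
          have h9 : A * (16 * N ^ 2) = A * X ^ 2 * (4 * N / X) ^ 2 := by
            field_simp
            ring
          rw [h9]
          exact mul_le_mul_of_nonneg_left h8 (by positivity)
        have h8 : A / (N₀ : ℝ) ^ 2 ≤ 1 := by
          rw [div_le_one (by positivity)]
          nlinarith
        refine ⟨q, b, hqQ, ?_, ?_⟩
        · have hi1 := hcube i hi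
          have hj1 := hcube j hjm.1
          have h9 : |-((z i).1 - (z j).1) / (2 * Real.pi)| ≤ 1 := by
            rw [abs_div, abs_of_pos (by positivity : (0 : ℝ) < 2 * Real.pi),
              div_le_one (by positivity), abs_le]
            constructor <;> linarith [hi1.1, hi1.2, hj1.1, hj1.2]
          have h10 : |(b : ℝ) / q| ≤ 2 := by
            have h11 : (b : ℝ) / q = -((z i).1 - (z j).1) / (2 * Real.pi) -
              (-((z i).1 - (z j).1) / (2 * Real.pi) - b / q) := by ring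
            rw [h11]
            refine le_trans (abs_sub _ _) ?_
            linarith
          rw [abs_div, abs_of_pos hq0, div_le_iff₀ hq0] at h10
          have h11 : |(b : ℝ)| ≤ 2 * Q := by
            have : (q : ℝ) ≤ Q := by exact_mod_cast hqQ
            linarith
          exact_mod_cast h11
        · have h9 : (z j).1 / (2 * Real.pi) - ((z i).1 / (2 * Real.pi) + b / q) =
              -((z i).1 - (z j).1) / (2 * Real.pi) - b / q := by ring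
          rw [h9]
          have h10 : |-((z i).1 - (z j).1) / (2 * Real.pi) - b / q| * N2 ≤
              A * X ^ 2 / (16 * N ^ 2) * (2 * N ^ 2) := by
            apply mul_le_mul (le_trans hqb h7) hN2 (Nat.cast_nonneg _) (by positivity)
          have h11 : A * X ^ 2 / (16 * N ^ 2) * (2 * N ^ 2) = A * X ^ 2 / 8 := by
            field_simp
            ring
          rw [h11] at h10
          linarith)
      (fun j hjm => hj j (Finset.mem_filter.mp hjm).1)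
    have h4 : ((J.filter (fun j => N₀ / X ≤ Sij i j)).card : ℝ) ≤
        (Q + 1) * (4 * Q + 1) * (2 * P + 1) := by exact_mod_cast h3
    refine le_trans h4 ?_
    have hX2 : 1 ≤ X ^ 2 := one_le_pow₀ hX1
    have hAX : 1 ≤ A * X ^ 2 := by nlinarith
    calc ((Q : ℝ) + 1) * (4 * Q + 1) * (2 * P + 1) ≤ (2 * A) * (5 * A) * (8 * (A * X ^ 2)) := by
          gcongr
          · linarith
          · linarith
          · linarith
      _ = 80 * C₁ ^ 3 * X ^ (3 * κ₁ + 2) := by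
          rw [hA]
          ring
  have h3 : ∑ i ∈ J, ∑ j ∈ J, Sij i j ≤ ∑ i ∈ J,
      (((J.filter (fun j => N₀ / X ≤ Sij i j)).card : ℝ) * N₀ + m * (N₀ / X)) := by
    apply Finset.sum_le_sum
    intro i _
    have h4 : ∀ j ∈ J, Sij i j ≤ (if N₀ / X ≤ Sij i j then (N₀ : ℝ) else 0) + N₀ / X := by
      intro j _
      split_ifs with h5
      · have := hSN i j
        have : 0 ≤ (N₀ : ℝ) / X := by positivity
        linarith
      · rw [zero_add]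
        exact (not_le.mp h5).le
    refine le_trans (Finset.sum_le_sum h4) (le_of_eq ?_)
    rw [Finset.sum_add_distrib, ← Finset.sum_filter, Finset.sum_const, Finset.sum_const,
      nsmul_eq_mul, nsmul_eq_mul, hmdef]
  have h4 : ∑ i ∈ J, (((J.filter (fun j => N₀ / X ≤ Sij i j)).card : ℝ) * N₀ + m * (N₀ / X)) ≤
      ∑ i ∈ J, ((80 * C₁ ^ 3 * X ^ (3 * κ₁ + 2)) * (2 * N) + m * (2 * N / X)) := by
    apply Finset.sum_le_sum
    intro i hi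
    have h5 := hG i hi
    gcongr
  rw [Finset.sum_const, nsmul_eq_mul, ← hmdef] at h4
  have h5 := le_trans h2 (le_trans h3 h4)
  have h6 : m * (m * (2 * N / X)) ≤ m * ((80 * C₁ ^ 3 * X ^ (3 * κ₁ + 2)) * (2 * N)) := by
    have h7 : m ^ 2 * (4 * N / X) = m * (m * (2 * N / X)) + m * (m * (2 * N / X)) := by ring
    rw [h7] at h5
    linarith
  have h7 := le_of_mul_le_mul_left h6 hm
  have h8 : m * (2 * N / X) = (m / X) * (2 * N) := by ring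
  rw [h8] at h7
  have h9 := le_of_mul_le_mul_right h7 (by positivity)
  rw [div_le_iff₀ hX0] at h9
  calc m ≤ 80 * C₁ ^ 3 * X ^ (3 * κ₁ + 2) * X := h9
    _ = 80 * C₁ ^ 3 * X ^ (3 * κ₁ + 3) := by ring

theorem crude : S_crude := by
  intro r
  obtain ⟨C₀, κ₁, hC₀, hwc⟩ := wc
  obtain ⟨C₁, hC₁⟩ : ∃ C₁ : ℝ, C₁ = max C₀ 1 := ⟨_, rfl⟩
  have hC₀₁ : C₀ ≤ C₁ := by rw [hC₁]; exact le_max_left _ _
  have h1C₁ : 1 ≤ C₁ := by rw [hC₁]; exact le_max_right _ _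
  have hwc' : ∀ (n₀ : ℤ) (N₀ : ℕ) (η τ : ℝ), 0 < η → η ≤ 1 →
      C₁ / η ^ κ₁ ≤ N₀ → η * N₀ ≤ ‖∑ n ∈ range N₀, ee (((n₀ : ℝ) + n) ^ 2 * τ)‖ →
      ∃ (q : ℕ) (a : ℤ), 1 ≤ q ∧ (q : ℝ) ≤ C₁ / η ^ κ₁ ∧
        |τ - a / q| ≤ C₁ / (η ^ κ₁ * (N₀ : ℝ) ^ 2) := by
    intro n₀ N₀ η τ hη hη1 hN₀ hS
    have h1 : C₀ / η ^ κ₁ ≤ C₁ / η ^ κ₁ := by gcongr
    obtain ⟨q, a, h2, h3, h4⟩ := hwc n₀ N₀ η τ hη hη1 (le_trans h1 hN₀) hS
    refine ⟨q, a, h2, le_trans h3 h1, le_trans h4 ?_⟩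
    gcongr
  obtain ⟨D, hD⟩ : ∃ D : ℝ, D = 80 * C₁ ^ 3 * ((2 : ℝ) ^ (r + 2)) ^ (3 * κ₁ + 3) := ⟨_, rfl⟩
  obtain ⟨E, hE⟩ : ∃ E : ℝ, E = (2 * Real.pi) ^ (r + 1) * Real.pi ^ 2 := ⟨_, rfl⟩
  have h2r : (1 : ℝ) ≤ 2 ^ (r + 2) := one_le_pow₀ (by norm_num)
  have hpi3 : 3 < Real.pi := Real.pi_gt_three
  have hE1 : 1 ≤ E := by
    rw [hE]
    have h1 : 1 ≤ (2 * Real.pi) ^ (r + 1) := one_le_pow₀ (by linarith)
    have h2 : 1 ≤ Real.pi ^ 2 := one_le_pow₀ (by linarith)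
    nlinarith
  have hDpos : 0 < D := by rw [hD]; positivity
  refine ⟨D * E, 6 * κ₁ + 8, by positivity, ?_⟩
  intro N Lam n₀ N₀ L K β a hN hLam hNl hN₀ hL hK hKN hsep ha
  have hLam0 : 0 < Lam := by linarith
  have hN0' : 0 < N := by linarith
  have hK0 : (0 : ℝ) < K := by exact_mod_cast hK
  obtain ⟨X, hX⟩ : ∃ X : ℝ, X = 2 ^ (r + 2) * Lam ^ 2 := ⟨_, rfl⟩
  have hNX : C₁ * X ^ (κ₁ + 1) ≤ N := by
    refine le_trans ?_ hNl
    have h1 : C₁ * X ^ (κ₁ + 1) = C₁ * ((2 : ℝ) ^ (r + 2)) ^ (κ₁ + 1) * Lam ^ (2 * κ₁ + 2) := by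
      rw [hX, mul_pow, ← pow_mul]
      ring_nf
    rw [h1, hD]
    have h2 : Lam ^ (2 * κ₁ + 2) ≤ Lam ^ (6 * κ₁ + 8) := pow_le_pow_right₀ hLam (by omega)
    have h3 : ((2 : ℝ) ^ (r + 2)) ^ (κ₁ + 1) ≤ ((2 : ℝ) ^ (r + 2)) ^ (3 * κ₁ + 3) :=
      pow_le_pow_right₀ h2r (by omega)
    have h4 : C₁ ≤ 80 * C₁ ^ 3 := by
      have : 1 ≤ C₁ ^ 2 := one_le_pow₀ h1C₁
      nlinarith
    have h5 : 80 * C₁ ^ 3 * ((2 : ℝ) ^ (r + 2)) ^ (3 * κ₁ + 3) ≤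
        80 * C₁ ^ 3 * ((2 : ℝ) ^ (r + 2)) ^ (3 * κ₁ + 3) * E :=
      le_mul_of_one_le_right (by positivity) hE1
    calc C₁ * ((2 : ℝ) ^ (r + 2)) ^ (κ₁ + 1) * Lam ^ (2 * κ₁ + 2) ≤
        (80 * C₁ ^ 3) * ((2 : ℝ) ^ (r + 2)) ^ (3 * κ₁ + 3) * Lam ^ (6 * κ₁ + 8) := by
          gcongr
      _ ≤ _ := by gcongr
  obtain ⟨N2, hN2⟩ : ∃ N2 : ℕ, N2 = ⌈N ^ 2⌉₊ := ⟨_, rfl⟩
  have hN2l : N ^ 2 ≤ N2 := by rw [hN2]; exact Nat.le_ceil _
  have hNsq : 1 ≤ N ^ 2 := one_le_pow₀ hN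
  have hN2u : (N2 : ℝ) ≤ 2 * N ^ 2 := by
    rw [hN2]
    have := Nat.ceil_lt_add_one (by positivity : 0 ≤ N ^ 2)
    linarith
  have hN2pos : (0 : ℝ) < N2 := by linarith
  obtain ⟨lam, hlamdef⟩ : ∃ lam : ℝ, lam = N ^ (((r : ℝ) + 1) / 2) / Lam := ⟨_, rfl⟩
  rw [← hlamdef]
  have hlam0 : 0 < lam := by rw [hlamdef]; positivity
  have hlam2 : lam ^ 2 = N ^ (r + 1) / Lam ^ 2 := by
    rw [hlamdef, div_pow, ← Real.rpow_natCast (N ^ (((r : ℝ) + 1) / 2)) 2,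
      ← Real.rpow_mul hN0'.le, ← Real.rpow_natCast N (r + 1)]
    congr 2
    push_cast
    ring
  set F : ℝ × (Fin r → ℝ) → ℝ := fun z =>
    ‖FF r (bx r (Finset.Ico n₀ (n₀ + N₀)) β L) a z.1 z.2‖ with hF
  classical
  obtain ⟨J, hJ⟩ : ∃ J : Finset ℕ, J = (range (N2 + 1)).filter (fun j => ∃ z : ℝ × (Fin r → ℝ),
    z ∈ cube r ∧ lam < F z ∧ ⌊z.1 / (2 * Real.pi) * N2⌋₊ = j) := ⟨_, rfl⟩
  have hex : ∀ j : ℕ, ∃ z : ℝ × (Fin r → ℝ), j ∈ J →
      (z ∈ cube r ∧ lam < F z ∧ ⌊z.1 / (2 * Real.pi) * N2⌋₊ = j) := by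
    intro j
    by_cases h : j ∈ J
    · rw [hJ, Finset.mem_filter] at h
      obtain ⟨z, hz⟩ := h.2
      exact ⟨z, fun _ => hz⟩
    · exact ⟨0, fun h' => absurd h' h⟩
  choose z hz using hex
  have hpi := Real.pi_pos
  have hcb : ∀ w ∈ cube r, 0 ≤ w.1 ∧ w.1 ≤ 2 * Real.pi := by
    intro w hw
    have := hw.1
    exact ⟨this.1, this.2⟩
  have hfl : ∀ w ∈ cube r, (⌊w.1 / (2 * Real.pi) * N2⌋₊ : ℝ) ≤ w.1 / (2 * Real.pi) * N2 ∧
      w.1 / (2 * Real.pi) * N2 ≤ (⌊w.1 / (2 * Real.pi) * N2⌋₊ : ℝ) + 1 := by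
    intro w hw
    have h1 := hcb w hw
    exact ⟨Nat.floor_le (mul_nonneg (div_nonneg h1.1 (by positivity)) hN2pos.le),
      (Nat.lt_floor_add_one _).le⟩
  have hcard := card_cells C₁ κ₁ h1C₁ hwc' r N Lam X hX n₀ N₀ L N2 β a hN hLam hNX hN₀ hL hN2u
    J z lam hlam0.le hlam2 (fun j hj => (hz j hj).2.1.le)
    (fun j hj => hcb _ (hz j hj).1) (fun j hj => by
      have h1 := hfl _ (hz j hj).1
      rw [(hz j hj).2.2] at h1
      exact h1) ha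
  have hcov : {w ∈ cube r | lam < F w} ⊆ ⋃ j ∈ J, {w ∈ cube r |
      |w.1 - 2 * Real.pi * (j + 1 / 2) / N2| ≤ Real.pi / K ∧ lam < F w} := by
    rintro w ⟨hw, hw1⟩
    rw [Set.mem_iUnion₂]
    refine ⟨⌊w.1 / (2 * Real.pi) * N2⌋₊, ?_, hw, ?_, hw1⟩
    · rw [hJ, Finset.mem_filter]
      refine ⟨?_, w, hw, hw1, rfl⟩
      rw [Finset.mem_range]
      have h1 : w.1 / (2 * Real.pi) * N2 ≤ N2 := by
        have h2 := (hcb w hw).2
        have h3 : w.1 / (2 * Real.pi) ≤ 1 := by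
          rw [div_le_one (by positivity)]
          exact h2
        nlinarith
      have h2 := Nat.floor_le_floor h1
      rw [Nat.floor_natCast] at h2
      omega
    · have h1 := hfl w hw
      obtain ⟨j, hj⟩ : ∃ j : ℕ, j = ⌊w.1 / (2 * Real.pi) * N2⌋₊ := ⟨_, rfl⟩
      rw [← hj] at h1 ⊢
      have h2 : w.1 - 2 * Real.pi * (j + 1 / 2) / N2 =
          (2 * Real.pi / N2) * (w.1 / (2 * Real.pi) * N2 - (j + 1 / 2)) := by
        field_simp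
      rw [h2, abs_mul, abs_of_pos (by positivity : 0 < 2 * Real.pi / N2)]
      have h3 : |w.1 / (2 * Real.pi) * N2 - (j + 1 / 2)| ≤ 1 / 2 := by
        rw [abs_le]
        constructor <;> linarith [h1.1, h1.2]
      calc (2 * Real.pi / N2) * |w.1 / (2 * Real.pi) * N2 - (j + 1 / 2)| ≤
          (2 * Real.pi / N2) * (1 / 2) := by gcongr
        _ = Real.pi / N2 := by ring
        _ ≤ Real.pi / K := by
            apply div_le_div_of_nonneg_left hpi.le hK0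
            linarith
  have hfin : volume (cube r) < ⊤ := (isCompact_cube r).measure_lt_top
  have h1 : volume.real {w ∈ cube r | lam < F w} ≤ ∑ j ∈ J, E / (4 * K * lam ^ 2) := by
    refine le_trans (measureReal_mono hcov ?_) ?_
    · apply ne_top_of_le_ne_top hfin.ne
      apply measure_mono
      intro w hw
      rw [Set.mem_iUnion₂] at hw
      obtain ⟨j, _, hw⟩ := hw
      exact hw.1
    · refine le_trans (measureReal_biUnion_finset_le _ _) ?_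
      apply Finset.sum_le_sum
      intro j _
      rw [hE]
      exact local_meas r L K (Finset.Ico n₀ (n₀ + N₀)) β a hK hsep _ lam hlam0 ha
  change volume.real {w ∈ cube r | lam < F w} ≤ _
  refine le_trans h1 ?_
  rw [Finset.sum_const, nsmul_eq_mul, hlam2]
  have h2 : (J.card : ℝ) * (E / (4 * K * (N ^ (r + 1) / Lam ^ 2))) ≤
      (80 * C₁ ^ 3 * X ^ (3 * κ₁ + 3)) * (E / (4 * K * (N ^ (r + 1) / Lam ^ 2))) := by
    gcongr
  refine le_trans h2 ?_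
  have h3 : (80 * C₁ ^ 3 * X ^ (3 * κ₁ + 3)) * (E / (4 * K * (N ^ (r + 1) / Lam ^ 2))) =
      (1 / 4) * (D * E * Lam ^ (6 * κ₁ + 8) / (N ^ (r + 1) * K)) := by
    rw [hX, hD, mul_pow, ← pow_mul Lam 2]
    have : Lam ^ (6 * κ₁ + 8) = Lam ^ (2 * (3 * κ₁ + 3)) * Lam ^ 2 := by
      rw [← pow_add]
      congr 1
      ring
    rw [this]
    field_simp
  rw [h3]
  have h4 : 0 ≤ D * E * Lam ^ (6 * κ₁ + 8) / (N ^ (r + 1) * K) := by positivity
  linarith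

end Pool.Agent.Helper49.AS
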