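import Pool.Agent.Helper64.AS.Defs

/-!
# Large quadratic Weyl sums are near rationals with small denominator (`S_wc`)
-/

set_option autoImplicit false

open Finset

namespace Pool.Agent.Helper49.AS

open Pool.Agent.Helper64.AS

lemma ee_add (x y : ℝ) : ee (x + y) = ee x * ee y := by
  unfold ee
  rw [← Complex.exp_add]
  congr 1
  push_cast
  ring

lemma norm_ee (x : ℝ) : ‖ee x‖ = 1 := by
  unfold ee
  exact Complex.norm_exp_ofReal_mul_I _

lemma ee_int (k : ℤ) : ee k = 1 := by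
  unfold ee
  rw [Complex.exp_eq_one_iff]
  refine ⟨k, ?_⟩
  push_cast
  ring

lemma ee_zero : ee 0 = 1 := by
  have := ee_int 0
  simpa using this

lemma conj_ee (x : ℝ) : (starRingEnd ℂ) (ee x) = ee (-x) := by
  unfold ee
  rw [← Complex.exp_conj]
  congr 1
  rw [map_mul, Complex.conj_ofReal, Complex.conj_I]
  push_cast
  ring

lemma norm_ee_sub_one (x : ℝ) : 4 * |x - round x| ≤ ‖ee x - 1‖ := by
  set y : ℝ := x - round x with hy
  have hyx : ee x = ee y := by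
    have : x = y + ((round x : ℤ) : ℝ) := by rw [hy]; ring
    conv_lhs => rw [this]
    rw [ee_add, ee_int, mul_one]
  have habs : |y| ≤ 1 / 2 := abs_sub_round x
  rw [hyx]
  have h1 : ‖ee y - 1‖ = ‖2 * Real.sin (2 * Real.pi * y / 2)‖ := by
    unfold ee
    rw [mul_comm, Complex.norm_exp_I_mul_ofReal_sub_one]
  rw [h1, Real.norm_eq_abs, abs_mul]
  have h2 : |Real.sin (2 * Real.pi * y / 2)| = Real.sin (Real.pi * |y|) := by
    have e : 2 * Real.pi * y / 2 = Real.pi * y := by ring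
    rw [e]
    rcases le_total 0 y with h | h
    · rw [abs_of_nonneg h, abs_of_nonneg]
      apply Real.sin_nonneg_of_nonneg_of_le_pi
      · positivity
      · rw [abs_of_nonneg h] at habs
        nlinarith [Real.pi_pos]
    · rw [abs_of_nonpos h, ← abs_neg, ← Real.sin_neg, ← mul_neg, abs_of_nonneg]
      apply Real.sin_nonneg_of_nonneg_of_le_pi
      · have : 0 ≤ -y := by linarith
        positivity
      · rw [abs_of_nonpos h] at habs
        nlinarith [Real.pi_pos]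
  rw [h2]
  have h3 : 2 / Real.pi * (Real.pi * |y|) ≤ Real.sin (Real.pi * |y|) := by
    apply Real.mul_le_sin
    · positivity
    · nlinarith [Real.pi_pos]
  have h4 : 2 / Real.pi * (Real.pi * |y|) = 2 * |y| := by
    field_simp
  rw [h4] at h3
  have : |(2 : ℝ)| = 2 := abs_of_pos (by norm_num)
  rw [this]
  linarith

lemma ee_pow (x : ℝ) (n : ℕ) : (ee x) ^ n = ee (n * x) := by
  induction n with
  | zero => simp [ee_zero]
  | succ n ih =>
    rw [pow_succ, ih, ← ee_add]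
    congr 1
    push_cast
    ring

lemma dir_mul (M : ℕ) (x : ℝ) : dir M x * (ee x - 1) = ee (M * x) - 1 := by
  have h : dir M x = ∑ j ∈ range M, (ee x) ^ j := by
    unfold dir
    apply Finset.sum_congr rfl
    intro j _
    rw [ee_pow]
  rw [h, geom_sum_mul, ee_pow]

lemma norm_dir_le (M : ℕ) (x : ℝ) : ‖dir M x‖ * (2 * |x - round x|) ≤ 1 := by
  have h1 := dir_mul M x
  have h2 : ‖dir M x‖ * ‖ee x - 1‖ ≤ 2 := by
    rw [← norm_mul, h1]
    calc ‖ee (M * x) - 1‖ ≤ ‖ee (M * x)‖ + ‖(1 : ℂ)‖ := norm_sub_le _ _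
      _ = 2 := by rw [norm_ee, norm_one]; norm_num
  have h3 := norm_ee_sub_one x
  have h4 : ‖dir M x‖ * (4 * |x - round x|) ≤ ‖dir M x‖ * ‖ee x - 1‖ :=
    mul_le_mul_of_nonneg_left h3 (norm_nonneg _)
  nlinarith

lemma norm_dir_le' (M : ℕ) (x : ℝ) : ‖dir M x‖ ≤ M := by
  unfold dir
  calc ‖∑ j ∈ range M, ee (j * x)‖ ≤ ∑ j ∈ range M, ‖ee (j * x)‖ := norm_sum_le _ _
    _ = ∑ j ∈ range M, (1 : ℝ) := Finset.sum_congr rfl (fun j _ => norm_ee _)
    _ = M := by simp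

lemma norm_sq_sum (z : ℕ → ℂ) (hz : ∀ n, ‖z n‖ = 1) (N : ℕ) :
    ‖∑ n ∈ range N, z n‖ ^ 2 =
      N + 2 * ∑ h ∈ range N, ∑ m ∈ range (N - 1 - h),
        (z (m + h + 1) * (starRingEnd ℂ) (z m)).re := by
  induction N with
  | zero => simp
  | succ N ih =>
    rw [Finset.sum_range_succ, Finset.sum_range_succ (n := N)]
    have e0 : N + 1 - 1 - N = 0 := by omega
    rw [e0, Finset.sum_range_zero, add_zero]
    have e1 : ∑ h ∈ range N, ∑ m ∈ range (N + 1 - 1 - h),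
        (z (m + h + 1) * (starRingEnd ℂ) (z m)).re =
        ∑ h ∈ range N, ∑ m ∈ range (N - 1 - h), (z (m + h + 1) * (starRingEnd ℂ) (z m)).re +
        ∑ h ∈ range N, (z N * (starRingEnd ℂ) (z (N - 1 - h))).re := by
      rw [← Finset.sum_add_distrib]
      apply Finset.sum_congr rfl
      intro h hh
      rw [Finset.mem_range] at hh
      have e2 : N + 1 - 1 - h = (N - 1 - h) + 1 := by omega
      rw [e2, Finset.sum_range_succ]
      congr 4
      have : N - 1 - h + h + 1 = N := by omega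
      rw [this]
    rw [e1, Finset.sum_range_reflect (fun m => (z N * (starRingEnd ℂ) (z m)).re) N]
    rw [← Complex.normSq_eq_norm_sq, Complex.normSq_add, Complex.normSq_eq_norm_sq,
      Complex.normSq_eq_norm_sq, ih, hz]
    have e3 : ((∑ n ∈ range N, z n) * (starRingEnd ℂ) (z N)).re =
        ∑ m ∈ range N, (z N * (starRingEnd ℂ) (z m)).re := by
      rw [Finset.sum_mul, Complex.re_sum]
      apply Finset.sum_congr rfl
      intro m _
      simp only [Complex.mul_re, Complex.conj_re, Complex.conj_im]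
      ring
    rw [e3]
    push_cast
    ring

/-- Weyl differencing -/
lemma weyl_diff (n₀ : ℤ) (N₀ : ℕ) (τ : ℝ) :
    ‖∑ n ∈ range N₀, ee (((n₀ : ℝ) + n) ^ 2 * τ)‖ ^ 2 ≤
      N₀ + 2 * ∑ h ∈ range N₀, ‖dir (N₀ - 1 - h) (2 * ((h : ℝ) + 1) * τ)‖ := by
  rw [norm_sq_sum (fun n => ee (((n₀ : ℝ) + n) ^ 2 * τ)) (fun n => norm_ee _)]
  gcongr with h hh
  rw [← Complex.re_sum]
  refine le_trans (Complex.re_le_norm _) (le_of_eq ?_)
  have : ∀ m ∈ range (N₀ - 1 - h), ee (((n₀ : ℝ) + ((m + h + 1 : ℕ) : ℝ)) ^ 2 * τ) *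
      (starRingEnd ℂ) (ee (((n₀ : ℝ) + (m : ℝ)) ^ 2 * τ)) =
      ee ((2 * n₀ * (h + 1) + (h + 1) ^ 2) * τ) * ee (m * (2 * ((h : ℝ) + 1) * τ)) := by
    intro m _
    rw [conj_ee, ← ee_add, ← ee_add]
    congr 1
    push_cast
    ring
  rw [Finset.sum_congr rfl this, ← Finset.mul_sum, norm_mul, norm_ee, one_mul]
  rfl

lemma exists_far (J : Finset ℕ) (n : ℕ) (h : n < J.card) : ∃ i ∈ J, ∃ j ∈ J, i + n ≤ j := by
  have hne : J.Nonempty := Finset.card_pos.mp (by omega)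
  refine ⟨J.min' hne, J.min'_mem hne, J.max' hne, J.max'_mem hne, ?_⟩
  have hsub : J ⊆ Finset.Icc (J.min' hne) (J.max' hne) := by
    intro x hx
    rw [Finset.mem_Icc]
    exact ⟨J.min'_le x hx, J.le_max' x hx⟩
  have h1 := Finset.card_le_card hsub
  rw [Nat.card_Icc] at h1
  omega

theorem wc : S_wc := by
  refine ⟨45000, 8, by norm_num, ?_⟩
  intro n₀ N₀ η τ hη hη1 hN hS
  have hη8 : 0 < η ^ 8 := by positivity
  have hN8 : 45000 ≤ η ^ 8 * N₀ := by
    rw [div_le_iff₀ hη8] at hN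
    linarith
  have hN0 : (0 : ℝ) < N₀ := by
    by_contra h
    have : (N₀ : ℝ) ≤ 0 := not_lt.mp h
    nlinarith
  have hp1 : η ^ 8 ≤ η ^ 6 := pow_le_pow_of_le_one hη.le hη1 (by norm_num)
  have hp2 : η ^ 8 ≤ η ^ 2 := pow_le_pow_of_le_one hη.le hη1 (by norm_num)
  have hη2 : 0 < η ^ 2 := by positivity
  have hη21 : η ^ 2 ≤ 1 := pow_le_one₀ hη.le hη1
  have hN6 : 45000 ≤ η ^ 6 * N₀ := le_trans hN8 (mul_le_mul_of_nonneg_right hp1 hN0.le)
  have hN2 : 45000 ≤ η ^ 2 * N₀ := le_trans hN8 (mul_le_mul_of_nonneg_right hp2 hN0.le)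
  -- the set of good differences
  set Hs : Finset ℕ := (range N₀).filter
    (fun h => η ^ 2 * N₀ / 8 ≤ ‖dir (N₀ - 1 - h) (2 * ((h : ℝ) + 1) * τ)‖) with hHs
  have hcard : η ^ 2 * N₀ / 4 ≤ (Hs.card : ℝ) := by
    have h1 := weyl_diff n₀ N₀ τ
    have h2 : (η * N₀) ^ 2 ≤ ‖∑ n ∈ range N₀, ee (((n₀ : ℝ) + n) ^ 2 * τ)‖ ^ 2 :=
      pow_le_pow_left₀ (by positivity) hS 2
    have h3 : ∑ h ∈ range N₀, ‖dir (N₀ - 1 - h) (2 * ((h : ℝ) + 1) * τ)‖ ≤
        ∑ h ∈ range N₀, ((if h ∈ Hs then (N₀ : ℝ) else 0) + η ^ 2 * N₀ / 8) := by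
      apply Finset.sum_le_sum
      intro h hh
      by_cases hhs : h ∈ Hs
      · rw [if_pos hhs]
        have := norm_dir_le' (N₀ - 1 - h) (2 * ((h : ℝ) + 1) * τ)
        have h5 : ((N₀ - 1 - h : ℕ) : ℝ) ≤ N₀ := by
          exact_mod_cast (by omega : N₀ - 1 - h ≤ N₀)
        have h6 : 0 ≤ η ^ 2 * N₀ / 8 := by positivity
        linarith
      · rw [if_neg hhs]
        have : ¬ (η ^ 2 * N₀ / 8 ≤ ‖dir (N₀ - 1 - h) (2 * ((h : ℝ) + 1) * τ)‖) := by
          intro hc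
          exact hhs (Finset.mem_filter.mpr ⟨hh, hc⟩)
        rw [zero_add]
        exact (not_le.mp this).le
    have h4 : ∑ h ∈ range N₀, ((if h ∈ Hs then (N₀ : ℝ) else 0) + η ^ 2 * N₀ / 8) =
        Hs.card * N₀ + N₀ * (η ^ 2 * N₀ / 8) := by
      have h9 : (range N₀).filter (fun h => h ∈ Hs) = Hs := by
        ext x
        simp only [Finset.mem_filter, hHs]
        tauto
      rw [Finset.sum_add_distrib, ← Finset.sum_filter, Finset.sum_const, Finset.sum_const,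
        Finset.card_range, nsmul_eq_mul, nsmul_eq_mul, h9]
    rw [h4] at h3
    have h7 : η ^ 2 * N₀ * N₀ ≤ (1 + 2 * Hs.card + η ^ 2 * N₀ / 4) * N₀ := by
      nlinarith
    have h8 := le_of_mul_le_mul_right h7 hN0
    linarith
  have hround : ∀ h ∈ Hs, |2 * ((h : ℝ) + 1) * τ - round (2 * ((h : ℝ) + 1) * τ)| ≤
      4 / (η ^ 2 * N₀) := by
    intro h hh
    rw [hHs, Finset.mem_filter] at hh
    have h1 := norm_dir_le (N₀ - 1 - h) (2 * ((h : ℝ) + 1) * τ)
    have h2 := hh.2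
    set R := |2 * ((h : ℝ) + 1) * τ - round (2 * ((h : ℝ) + 1) * τ)| with hR
    have hR0 : 0 ≤ R := abs_nonneg _
    have h3 : η ^ 2 * N₀ / 8 * (2 * R) ≤ 1 := by
      refine le_trans (mul_le_mul_of_nonneg_right h2 (by positivity)) h1
    rw [le_div_iff₀ (by positivity)]
    linarith
  -- two good differences that are close
  obtain ⟨B, hB⟩ : ∃ B : ℕ, B = ⌈8 / η ^ 2⌉₊ := ⟨_, rfl⟩
  have hBl : 8 / η ^ 2 ≤ B := by rw [hB]; exact Nat.le_ceil _
  have hBu : (B : ℝ) < 8 / η ^ 2 + 1 := by rw [hB]; exact Nat.ceil_lt_add_one (by positivity)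
  have hB8 : (8 : ℝ) ≤ B := by
    refine le_trans ?_ hBl
    rw [le_div_iff₀ hη2]
    nlinarith
  have hBpos : 0 < B := by
    have : (0 : ℝ) < B := by linarith
    exact_mod_cast this
  obtain ⟨h₁, hh₁, h₂, hh₂, hne, heq⟩ : ∃ x ∈ Hs, ∃ y ∈ Hs, x ≠ y ∧ x / B = y / B := by
    apply Finset.exists_ne_map_eq_of_card_lt_of_maps_to (t := range (N₀ / B + 1))
    · rw [Finset.card_range]
      have h1 : ((N₀ / B + 1 : ℕ) : ℝ) ≤ η ^ 2 * N₀ / 8 + 1 := by
        push_cast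
        have : ((N₀ / B : ℕ) : ℝ) ≤ N₀ / B := Nat.cast_div_le
        have h3 : (N₀ : ℝ) / B ≤ η ^ 2 * N₀ / 8 := by
          rw [div_le_iff₀ (by linarith)]
          have h4 : 8 ≤ η ^ 2 * B := by
            rw [div_le_iff₀ hη2] at hBl
            linarith
          nlinarith
        linarith
      have h2 : ((N₀ / B + 1 : ℕ) : ℝ) < (Hs.card : ℝ) := by linarith
      exact_mod_cast h2
    · intro x hx
      rw [hHs, Finset.coe_filter] at hx
      have hx1 : x < N₀ := by simpa using hx.1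
      simp only [Finset.coe_range, Set.mem_Iio]
      have : x / B ≤ N₀ / B := Nat.div_le_div_right hx1.le
      omega
  obtain ⟨k, k', hk, hk', hlt, hB'⟩ : ∃ k k' : ℕ, k ∈ Hs ∧ k' ∈ Hs ∧ k' < k ∧ k - k' < B := by
    have hd1 := Nat.div_add_mod h₁ B
    have hd2 := Nat.div_add_mod h₂ B
    have hm1 := Nat.mod_lt h₁ hBpos
    have hm2 := Nat.mod_lt h₂ hBpos
    rw [heq] at hd1
    rcases lt_or_gt_of_ne hne with h | h
    · exact ⟨h₂, h₁, hh₂, hh₁, h, by omega⟩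
    · exact ⟨h₁, h₂, hh₁, hh₂, h, by omega⟩
  obtain ⟨q, hq⟩ : ∃ q : ℕ, q = 2 * (k - k') := ⟨_, rfl⟩
  have hq1 : 1 ≤ q := by omega
  have hqR : (q : ℝ) = 2 * ((k : ℝ) - k') := by
    rw [hq]
    push_cast [Nat.cast_sub hlt.le]
    ring
  have hqle : (q : ℝ) ≤ 18 / η ^ 2 := by
    have h1 : (q : ℝ) ≤ 2 * B := by
      have : q ≤ 2 * B := by omega
      exact_mod_cast this
    have h2 : 1 ≤ 1 / η ^ 2 := by rw [le_div_iff₀ hη2]; linarith
    have h3 : 8 / η ^ 2 = 8 * (1 / η ^ 2) := by ring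
    have h4 : 18 / η ^ 2 = 18 * (1 / η ^ 2) := by ring
    rw [h4]
    rw [h3] at hBu
    linarith
  obtain ⟨a, ha⟩ : ∃ a : ℤ, a = round (2 * ((k : ℝ) + 1) * τ) - round (2 * ((k' : ℝ) + 1) * τ) :=
    ⟨_, rfl⟩
  obtain ⟨e0, he0⟩ : ∃ e0 : ℝ, e0 = q * τ - a := ⟨_, rfl⟩
  have he0le : |e0| ≤ 8 / (η ^ 2 * N₀) := by
    have h1 := hround k hk
    have h2 := hround k' hk'
    have h3 : e0 = (2 * ((k : ℝ) + 1) * τ - round (2 * ((k : ℝ) + 1) * τ)) -
        (2 * ((k' : ℝ) + 1) * τ - round (2 * ((k' : ℝ) + 1) * τ)) := by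
      rw [he0, ha, hqR]
      push_cast
      ring
    rw [h3]
    refine le_trans (abs_sub _ _) ?_
    have : 8 / (η ^ 2 * N₀) = 4 / (η ^ 2 * N₀) + 4 / (η ^ 2 * N₀) := by ring
    rw [this]
    exact add_le_add h1 h2
  have hqpos : 0 < q := by omega
  -- the classes
  obtain ⟨K, hK⟩ : ∃ K : ℕ, K = ⌈18 / η ^ 2⌉₊ := ⟨_, rfl⟩
  have hKl : 18 / η ^ 2 ≤ K := by rw [hK]; exact Nat.le_ceil _
  have hKu : (K : ℝ) < 18 / η ^ 2 + 1 := by rw [hK]; exact Nat.ceil_lt_add_one (by positivity)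
  obtain ⟨jq, hjq⟩ : ∃ jq : ℕ → ℕ, ∀ h, jq h = (2 * (h + 1)) / q := ⟨_, fun h => rfl⟩
  obtain ⟨sq, hsq⟩ : ∃ sq : ℕ → ℕ, ∀ h, sq h = (2 * (h + 1)) % q := ⟨_, fun h => rfl⟩
  obtain ⟨f, hf⟩ : ∃ f : ℕ → ℕ × ℤ, ∀ h, f h = (sq h,
    round (2 * ((h : ℝ) + 1) * τ) - (jq h : ℤ) * a -
      ⌊(sq h : ℝ) * τ⌋) := ⟨_, fun h => rfl⟩
  have hdecomp : ∀ h : ℕ, 2 * ((h : ℝ) + 1) * τ = (jq h : ℝ) * (a + e0) +
      (sq h : ℝ) * τ := by
    intro h
    have h1 : (((q * jq h + sq h : ℕ)) : ℝ) = 2 * ((h : ℝ) + 1) := by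
      rw [hjq, hsq, Nat.div_add_mod]
      push_cast
      ring
    rw [← h1, he0]
    push_cast
    ring
  obtain ⟨n, hn⟩ : ∃ n : ℕ, n = ⌊η ^ 6 * N₀ / 2809⌋₊ := ⟨_, rfl⟩
  have hnu : (n : ℝ) ≤ η ^ 6 * N₀ / 2809 := by rw [hn]; exact Nat.floor_le (by positivity)
  have hnl : η ^ 6 * N₀ / 2809 < n + 1 := by rw [hn]; exact Nat.lt_floor_add_one _
  obtain ⟨y, -, hy⟩ : ∃ y ∈ (range q ×ˢ Finset.Icc (-(K : ℤ)) K), n <
      (Hs.filter (fun h => f h = y)).card := by
    apply Finset.exists_lt_card_fiber_of_mul_lt_card_of_maps_to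
    · intro h hh
      rw [hf, Finset.mem_product]
      refine ⟨by rw [Finset.mem_range, hsq]; exact Nat.mod_lt _ hqpos, ?_⟩
      rw [Finset.mem_Icc, ← abs_le]
      have hhN : (h : ℝ) + 1 ≤ N₀ := by
        rw [hHs, Finset.mem_filter, Finset.mem_range] at hh
        exact_mod_cast hh.1
      have h1 : (jq h : ℝ) ≤ 2 * N₀ := by
        have h2 : jq h ≤ 2 * (h + 1) := by rw [hjq]; exact Nat.div_le_self _ _
        have h3 : (jq h : ℝ) ≤ ((2 * (h + 1) : ℕ) : ℝ) := by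
          exact_mod_cast h2
        push_cast at h3
        linarith
      have h4 : |(jq h : ℝ) * e0| ≤ 16 / η ^ 2 := by
        rw [abs_mul, abs_of_nonneg (Nat.cast_nonneg _)]
        calc (jq h : ℝ) * |e0| ≤ (2 * N₀) * (8 / (η ^ 2 * N₀)) :=
              mul_le_mul h1 he0le (abs_nonneg _) (by positivity)
          _ = 16 / η ^ 2 := by field_simp; norm_num
      have h5 := hdecomp h
      have h6 : |2 * ((h : ℝ) + 1) * τ - round (2 * ((h : ℝ) + 1) * τ)| ≤ 1 / 2 :=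
        abs_sub_round _
      have h7 := Int.floor_le ((sq h : ℝ) * τ)
      have h8 := Int.lt_floor_add_one ((sq h : ℝ) * τ)
      have h9 : |((round (2 * ((h : ℝ) + 1) * τ) - (jq h : ℤ) * a -
          ⌊(sq h : ℝ) * τ⌋ : ℤ) : ℝ)| ≤ K := by
        push_cast
        rw [abs_le] at h4 h6 ⊢
        have h10 : 1 ≤ 1 / η ^ 2 := by rw [le_div_iff₀ hη2]; linarith
        have h11 : 16 / η ^ 2 = 16 * (1 / η ^ 2) := by ring
        have h12 : 18 / η ^ 2 = 18 * (1 / η ^ 2) := by ring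
        rw [h11] at h4
        rw [h12] at hKl
        constructor
        · nlinarith
        · nlinarith
      exact_mod_cast h9
    · rw [Finset.card_product, Finset.card_range, Int.card_Icc]
      have h1 : ((K : ℤ) + 1 - (-(K : ℤ))).toNat = 2 * K + 1 := by omega
      rw [h1]
      have h2 : ((q * (2 * K + 1) * n : ℕ) : ℝ) < Hs.card := by
        push_cast
        have h10 : 1 ≤ 1 / η ^ 2 := by rw [le_div_iff₀ hη2]; linarith
        have h3 : (2 * (K : ℝ) + 1) ≤ 39 / η ^ 2 := by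
          have h12 : 18 / η ^ 2 = 18 * (1 / η ^ 2) := by ring
          have h13 : 39 / η ^ 2 = 39 * (1 / η ^ 2) := by ring
          rw [h12] at hKu
          rw [h13]
          linarith
        have h4 : (q : ℝ) * (2 * K + 1) * n ≤ (18 / η ^ 2) * (39 / η ^ 2) *
            (η ^ 6 * N₀ / 2809) := by
          gcongr
        have h5 : (18 / η ^ 2) * (39 / η ^ 2) * (η ^ 6 * N₀ / 2809) =
            702 / 2809 * (η ^ 2 * N₀) := by
          field_simp
          ring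
        rw [h5] at h4
        nlinarith
      exact_mod_cast h2
  -- two members of a class that are far apart
  set A := Hs.filter (fun h => f h = y) with hA
  have hinj : Set.InjOn jq A := by
    intro x hx x' hx' hxx
    rw [hA, Finset.coe_filter] at hx hx'
    have h1 : sq x = sq x' := by
      have h2 := hx.2
      have h3 := hx'.2
      rw [hf] at h2 h3
      rw [← h3] at h2
      exact congrArg Prod.fst h2
    have h4 := Nat.div_add_mod (2 * (x + 1)) q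
    have h5 := Nat.div_add_mod (2 * (x' + 1)) q
    rw [← hjq, ← hsq] at h4 h5
    rw [hxx, h1, h5] at h4
    omega
  obtain ⟨i, hi, j, hj, hij⟩ := exists_far (A.image jq) n
    (by rw [Finset.card_image_of_injOn hinj]; exact hy)
  obtain ⟨x, hx, rfl⟩ := Finset.mem_image.mp hi
  obtain ⟨x', hx', rfl⟩ := Finset.mem_image.mp hj
  rw [hA, Finset.mem_filter] at hx hx'
  have hee : |((jq x' : ℝ) - (jq x : ℝ)) * e0| ≤
      8 / (η ^ 2 * N₀) := by
    have h1 := hround x hx.1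
    have h2 := hround x' hx'.1
    have h3 := hx.2
    have h4 := hx'.2
    rw [hf] at h3 h4
    rw [← h4] at h3
    have h5 : sq x = sq x' := congrArg Prod.fst h3
    have h6 := congrArg Prod.snd h3
    simp only at h6
    rw [h5] at h6
    have h7 : (round (2 * ((x : ℝ) + 1) * τ) : ℝ) - (jq x : ℝ) * a =
        round (2 * ((x' : ℝ) + 1) * τ) - (jq x' : ℝ) * a := by
      have h8 : round (2 * ((x : ℝ) + 1) * τ) - (jq x : ℤ) * a =
        round (2 * ((x' : ℝ) + 1) * τ) - (jq x' : ℤ) * a := by linarith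
      have h9 := congrArg (fun z : ℤ => (z : ℝ)) h8
      simpa using h9
    have h8 : ((jq x' : ℝ) - (jq x : ℝ)) * e0 =
        (2 * ((x' : ℝ) + 1) * τ - round (2 * ((x' : ℝ) + 1) * τ)) -
        (2 * ((x : ℝ) + 1) * τ - round (2 * ((x : ℝ) + 1) * τ)) := by
      have h9 := hdecomp x
      have h10 := hdecomp x'
      rw [h5] at h9
      linarith
    rw [h8]
    refine le_trans (abs_sub _ _) ?_
    have : 8 / (η ^ 2 * N₀) = 4 / (η ^ 2 * N₀) + 4 / (η ^ 2 * N₀) := by ring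
    rw [this]
    exact add_le_add h2 h1
  have he0f : |e0| ≤ 45000 / (η ^ 8 * (N₀ : ℝ) ^ 2) := by
    have h1 : η ^ 6 * N₀ / 5618 ≤
        ((jq x' : ℝ) - (jq x : ℝ)) := by
      have h2 : (jq x : ℝ) + n ≤ (jq x' : ℝ) := by
        exact_mod_cast hij
      linarith
    rw [abs_mul] at hee
    have h3 : η ^ 6 * N₀ / 5618 * |e0| ≤ 8 / (η ^ 2 * N₀) := by
      refine le_trans (mul_le_mul_of_nonneg_right ?_ (abs_nonneg _)) hee
      exact le_trans h1 (le_abs_self _)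
    rw [le_div_iff₀ (by positivity)] at h3 ⊢
    have h4 : η ^ 6 * N₀ / 5618 * |e0| * (η ^ 2 * N₀) = |e0| * (η ^ 8 * (N₀ : ℝ) ^ 2) / 5618 := by
      ring
    rw [h4] at h3
    linarith
  refine ⟨q, a, hq1, ?_, ?_⟩
  · refine le_trans hqle ?_
    exact div_le_div₀ (by norm_num) (by norm_num) hη8 hp2
  · have hqR0 : (0 : ℝ) < q := by exact_mod_cast hqpos
    have hq1R : (1 : ℝ) ≤ q := by exact_mod_cast hq1
    have h1 : τ - a / q = e0 / q := by
      rw [he0]
      field_simp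
    rw [h1, abs_div, abs_of_pos hqR0]
    refine le_trans (div_le_self (abs_nonneg _) hq1R) he0f

end Pool.Agent.Helper49.AS
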